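import Pool.Agent.helper14.NS.Q68e.PZ

/-!
Generated: certificates.
-/

namespace Pool.Agent.helper14.NS.Q68e

open Pool.Agent.helper31.IA (Z)
open Pool.Agent.helper31.IX (Op XOps runX Cov CovD cov_split covD_split)
open Pool.Agent.helper31.IC (TD)
open Pool.Agent.helper63.RG (reloc)
open Pool.Agent.helper63.NF hiding TD
open Pool.Agent.helper4.NS
open Pool.Agent.helper14.CF (xE covD_E)
open Pool.Agent.helper14.NR (share)

mutual
theorem Z_c0_t3 : CovD 1 gZ [(12288262144, 1293942784), (2473901162496, 274877906944), (412316860416, 412316860416)] :=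
  covD_E kZ_eq (.n 2 (.n 2 (.n 2 (.l 0) (.l 0)) (.n 2 (.l 0) (.l 0))) (.n 2 (.n 2 (.l 0) (.l 0)) (.n 2 (.l 0) (.n 0 (.l 0) (.l 0)))))
    [(12288262144, 1293942784), (2473901162496, 274877906944), (412316860416, 412316860416)] rfl (by decide +kernel)
theorem Z_c0_t4 : CovD 1 gZ [(12288262144, 1293942784), (3023656976384, 274877906944), (412316860416, 412316860416)] :=
  covD_E kZ_eq (.n 2 (.n 2 (.n 2 (.l 0) (.l 0)) (.n 2 (.l 0) (.l 0))) (.n 2 (.n 2 (.l 0) (.l 0)) (.n 2 (.l 0) (.l 0))))
    [(12288262144, 1293942784), (3023656976384, 274877906944), (412316860416, 412316860416)] rfl (by decide +kernel)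
end

mutual
theorem Z_c0_t6 : CovD 1 gZ [(12288262144, 1293942784), (3573412790272, 274877906944), (412316860416, 412316860416)] :=
  covD_E kZ_eq (.n 2 (.n 2 (.n 2 (.l 0) (.l 0)) (.n 2 (.l 0) (.l 0))) (.n 2 (.n 2 (.l 0) (.l 0)) (.n 2 (.l 0) (.n 0 (.l 0) (.l 0)))))
    [(12288262144, 1293942784), (3573412790272, 274877906944), (412316860416, 412316860416)] rfl (by decide +kernel)
theorem Z_c0_t7 : CovD 1 gZ [(12288262144, 1293942784), (4123168604160, 274877906944), (412316860416, 412316860416)] :=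
  covD_E kZ_eq (.n 2 (.n 2 (.n 2 (.l 0) (.l 0)) (.n 2 (.l 0) (.l 0))) (.n 2 (.n 2 (.l 0) (.l 0)) (.n 2 (.l 0) (.n 0 (.l 0) (.l 0)))))
    [(12288262144, 1293942784), (4123168604160, 274877906944), (412316860416, 412316860416)] rfl (by decide +kernel)
end

mutual
theorem Z_c0_t10 : CovD 1 gZ [(14876147712, 1293942784), (2473901162496, 274877906944), (412316860416, 412316860416)] :=
  covD_E kZ_eq (.n 2 (.n 2 (.n 2 (.l 0) (.l 0)) (.n 2 (.l 0) (.l 0))) (.n 2 (.n 2 (.l 0) (.l 0)) (.n 2 (.l 0) (.n 0 (.l 0) (.l 0)))))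
    [(14876147712, 1293942784), (2473901162496, 274877906944), (412316860416, 412316860416)] rfl (by decide +kernel)
theorem Z_c0_t11 : CovD 1 gZ [(14876147712, 1293942784), (3023656976384, 274877906944), (412316860416, 412316860416)] :=
  covD_E kZ_eq (.n 2 (.n 2 (.n 2 (.l 0) (.l 0)) (.n 2 (.l 0) (.l 0))) (.n 2 (.n 2 (.l 0) (.l 0)) (.n 2 (.l 0) (.n 0 (.l 0) (.l 0)))))
    [(14876147712, 1293942784), (3023656976384, 274877906944), (412316860416, 412316860416)] rfl (by decide +kernel)
end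

mutual
theorem Z_c0_t13 : CovD 1 gZ [(14876147712, 1293942784), (3573412790272, 274877906944), (412316860416, 412316860416)] :=
  covD_E kZ_eq (.n 2 (.n 1 (.n 2 (.l 0) (.l 0)) (.n 2 (.l 0) (.l 0))) (.n 2 (.n 2 (.l 0) (.l 0)) (.n 2 (.l 0) (.n 0 (.l 0) (.l 0)))))
    [(14876147712, 1293942784), (3573412790272, 274877906944), (412316860416, 412316860416)] rfl (by decide +kernel)
theorem Z_c0_t14 : CovD 1 gZ [(14876147712, 1293942784), (4123168604160, 274877906944), (412316860416, 412316860416)] :=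
  covD_E kZ_eq (.n 2 (.n 1 (.n 2 (.l 0) (.l 0)) (.n 2 (.l 0) (.l 0))) (.n 2 (.n 2 (.l 0) (.l 0)) (.n 2 (.l 0) (.n 2 (.l 0) (.n 0 (.l 0) (.l 0))))))
    [(14876147712, 1293942784), (4123168604160, 274877906944), (412316860416, 412316860416)] rfl (by decide +kernel)
end

mutual
theorem T_c0 : CovD 1 gT [(13582204928, 2587885568), (3298534883328, 1099511627776)] :=
  covD_E kT_eq (.n 1 (.n 1 (.l 0) (.l 0)) (.n 1 (.l 0) (.l 0)))
    [(13582204928, 2587885568), (3298534883328, 1099511627776)] rfl (by decide +kernel)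
theorem S_c0 : CovD 0 gS [(13582204928, 2587885568), (3298534883328, 1099511627776)] :=
  covD_E kS_eq (.n 0 (.n 1 (.l 0) (.l 0)) (.n 1 (.l 0) (.l 0)))
    [(13582204928, 2587885568), (3298534883328, 1099511627776)] rfl (by decide +kernel)
end

theorem Z_c0_t2 : CovD 1 gZ [(12288262144, 1293942784), (2748779069440, 549755813888), (412316860416, 412316860416)] :=
  covD_split 1 (by decide +kernel) Z_c0_t3 Z_c0_t4

theorem Z_c0_t5 : CovD 1 gZ [(12288262144, 1293942784), (3848290697216, 549755813888), (412316860416, 412316860416)] :=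
  covD_split 1 (by decide +kernel) Z_c0_t6 Z_c0_t7

theorem Z_c0_t1 : CovD 1 gZ [(12288262144, 1293942784), (3298534883328, 1099511627776), (412316860416, 412316860416)] :=
  covD_split 1 (by decide +kernel) Z_c0_t2 Z_c0_t5

theorem Z_c0_t9 : CovD 1 gZ [(14876147712, 1293942784), (2748779069440, 549755813888), (412316860416, 412316860416)] :=
  covD_split 1 (by decide +kernel) Z_c0_t10 Z_c0_t11

theorem Z_c0_t12 : CovD 1 gZ [(14876147712, 1293942784), (3848290697216, 549755813888), (412316860416, 412316860416)] :=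
  covD_split 1 (by decide +kernel) Z_c0_t13 Z_c0_t14

theorem Z_c0_t8 : CovD 1 gZ [(14876147712, 1293942784), (3298534883328, 1099511627776), (412316860416, 412316860416)] :=
  covD_split 1 (by decide +kernel) Z_c0_t9 Z_c0_t12

theorem Z_c0 : CovD 1 gZ [(13582204928, 2587885568), (3298534883328, 1099511627776), (412316860416, 412316860416)] :=
  covD_split 0 (by decide +kernel) Z_c0_t1 Z_c0_t8

end Pool.Agent.helper14.NS.Q68e
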