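import Pool.Agent.helper14.NS.Cert

/-!
Generated: table Q68e.
-/

namespace Pool.Agent.helper14.NS.Q68e

open Pool.Agent.helper63.NF Pool.Agent.helper4.NS

def tab : TD where
  strip := false
  bm := none
  ec := 13589544960
  bc := 3298534883328
  H := [[[2244947968, 18764007296, -311465856, -516875456], [-534832803328, -280182829184], [19696558149440]], [[964026112, -1991088384, 197756928], [195833165696, 64713859456]], [[-170840576, 123733120, -15746944], [-19093315968]], [[17948160, -4320832], [475742656]], [[-1221824, 78976]], [[46464]], [[-704]]]
  pol := some ⟨-2341562482688, -94729798680576, 5872294035456, 31362867265536, [[-120963269120, -68166804608], [-8320116112640, 0]], [[752109685632, -354870172992], [80087456052864, 0]]⟩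
  a := [[[733551460352, -19516489728, -79588163584, -20679163904], [16095735250944, 18440219525120]], [[48838017024, 3422552064, 2438529024, -3983998976], [-23800381440, 1106033377280]], [[44062081024, 27262976, 0, 0], [6610092032, 2207645696]], [[43899027456, -27131904, 0, 0], [-6584074240, -2190409728]], [[44143869952, 54591488, 0, 0], [13246332928, 4432592896]]]
  j := [13881334300672, 3023656976384, 2886218022912, 4260607557632, 5772436045824]
  c := [879662989312, 879662989312, 659814350848, 549755813888, 439697276928]
  M := [[[[1106907168768, 4269670400, -1045626880], [1204637401088, 985964085248], [212843126063104]], [[41782149120, 7278297088], [5345242710016]], [[31458131968, -29694951424], [-918482845696]], [[17205297152]], [[-41656188928]], [[57771819008]]], [[[1109232844800, 4594532352, 354222080], [911339487232]], [[7111966720, 235208704], [596313571328]], [[-73072640]], [[2883584]]], [[[1108972666880, 4714790912, 677707776], [871283687424]], [[6777864192, 175636480], [597797044224]], [[-15007744]], [[786432]]], [[[1109107802112, 5081071616, 767492096], [867441442816]], [[6684540928, 111083520], [600992448512]], [[5767168]], [[-65536]]], [[[1109354938368, 5531500544, 834338816], [871450345472]], [[6573719552,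 46792704], [609430667264]], [[20054016]], [[-524288]]]]
  l0 := [[[3731244091392, 109492696576], [8157568140032]], [[1330159309056, -292254073600], [-69922079375488]], [[481685894528, -24842218944], [146364465978560]], [[1811371848320, 201968437568], [-389893660437888]], [[-2091545869504, -738042653376], [474869616039424]], [[14327619023936, -177768772928], [-592583786306048]], [[-22058006743616]], [[77426427625344]], [[-93386106856768]], [[187115433870400]], [[-122727004545472]], [[129234998158720]]]
  q0 := [[174246842048, 70650174656, 6428299904], [15623383774016, 6865908232512], [103335733879872]]
  t := [[[899975086080, -177701519360, 46326218752, 3606249472], [-12066629287936, 16445743562752]], [[430882357248, 63921848320, -8487305216, -1469382656], [13937461952512, 5727386927104]], [[413978066944, 56102813696, -11719016448, 2464612352], [13399797071872, 2114461499392]], [[398707130368, 48664084480, -13533708288, 2911436800], [11644439298048, 579250028544]], [[395108220928, 42766237696, -15156707328, 3802923008], [11319153524736, -1488998236160]]]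
  y := [9630390419456, 12992276070400, 15461882265600, 17234630017024, 18601503358976]
  sc := [0, 0, 0, 0, 0]
  L := [(0, 2), (0, 3), (1, 1), (2, 0)]
  Lt := [(0, 2), (0, 3), (1, 1)]
  far := 3
  x2 := 10775214161920
  B1 := 1099511627776
  C2 := 1436096814080
  f1 := 0
  f2 := 0
  f3 := 0
  is1 := 8796093022208
  s1 := 137438953472

end Pool.Agent.helper14.NS.Q68e
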